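import Pool.Agent.helper34.FJ3.DefsC
import Pool.Agent.helper50.LT.Rep
import Pool.Agent.helper60.LT.Braid
import Pool.Agent.helper80.LT.Dihedral

set_option autoImplicit false
set_option linter.unusedSectionVars false
set_option linter.unusedVariables false

/-!
# Module FJ3-C3: a linear representation of an Artin group, injective on the spherical parabolics
of rank at most two, and the girth of the dihedral Artin groups
-/

namespace Pool.Agent.helper74.FJ3

open Pool.Agent.helper34.FJ3
open Pool.Agent.helper36.LT (Artin gen alt artinRels trv Form)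
open Pool.Agent.helper50.LT (lift lift_gen gen_rel alt_map artin_hom_ext len len_gen twist tvz tvu
  tvu_val tvu_zpow tvz_map trv_eq form_self blk blk_val isIntegral_form)
open Matrix (GeneralLinearGroup)

/-! ### transvections: the braid relation of a pair -/

section pair

variable {I : Type} [Fintype I] [DecidableEq I]

theorem tvz_mul_entry {R : Type} [CommRing R] (ω : I → I → R) (s t : I) (a b : R) (i j : I) :
    (tvz ω s a * tvz ω t b) i j = (if i = j then 1 else 0) + (if i = t then b * ω t j else 0) +
      (if i = s then a * ω s j else 0) + (if i = s then a * ω s t * (b * ω t j) else 0) := by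
  simp only [tvz, Matrix.mul_apply, Matrix.of_apply, add_mul, mul_add, Finset.sum_add_distrib]
  simp
  by_cases h : i = s
  · simp only [h, if_true]
    ring
  · simp only [h, if_false]
    ring

theorem alt_trv_pair (ω : I → I → ℝ) (s t : I) (hs : ω s s = 0) (ht : ω t t = 0)
    (hst : ω t s = - ω s t) (m : ℕ) (hm1 : m ≠ 1)
    (hval : ω s t = 2 * Real.cos (Real.pi / m) ∨ ω s t = - (2 * Real.cos (Real.pi / m))) :
    alt (trv ω s) (trv ω t) m = alt (trv ω t) (trv ω s) m := by
  rcases Nat.lt_or_ge m 3 with h | h3
  · have h02 : m = 0 ∨ m = 2 := by omega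
    rcases h02 with rfl | rfl
    · rfl
    · have h0 : ω s t = 0 := by
        have : Real.cos (Real.pi / (2 : ℕ)) = 0 := by
          rw [Nat.cast_ofNat, Real.cos_pi_div_two]
        rw [this] at hval
        simpa using hval
      have h0' : ω t s = 0 := by rw [hst, h0, neg_zero]
      simp only [alt, mul_one]
      rw [trv_eq, trv_eq]
      ext i j
      rw [tvz_mul_entry, tvz_mul_entry, h0, h0']
      simp only [mul_zero, zero_mul, ite_self, add_zero]
      ring
  · have hcpos : 0 < Real.cos (Real.pi / m) := by
      have hm3 : (3 : ℝ) ≤ m := by exact_mod_cast h3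
      apply Real.cos_pos_of_mem_Ioo
      constructor
      · have : 0 < Real.pi / (m : ℝ) := by positivity
        linarith [Real.pi_pos]
      · calc Real.pi / (m : ℝ) ≤ Real.pi / 3 :=
              div_le_div_of_nonneg_left Real.pi_pos.le (by norm_num) hm3
          _ < Real.pi / 2 := by linarith [Real.pi_pos]
    have hc : ω s t ^ 2 = 4 * Real.cos (Real.pi / m) ^ 2 := by
      rcases hval with h | h <;> rw [h] <;> ring
    have hne : ω s t ≠ 0 := by
      rcases hval with h | h <;> rw [h]
      · positivity
      · exact neg_ne_zero.mpr (by positivity)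
    rw [← Pool.Agent.helper60.LT.ext2_P ω s t hs ht hst hne,
      ← Pool.Agent.helper60.LT.ext2_Q ω s t hs ht hst hne, ← Pool.Agent.helper60.LT.alt_map,
      ← Pool.Agent.helper60.LT.alt_map, Pool.Agent.helper60.LT.plane h3 hc]

end pair

/-! ### the representation -/

section rep

variable {S : Type}

/-- the form with one more vector -/
def omo {R : Type} [CommRing R] (ω : S → S → R) : Option S → Option S → R
  | some s, some t => ω s t
  | some _, none => 1
  | none, some _ => -1
  | none, none => 0

theorem omo_self {M : CoxeterMatrix S} {ω : S → S → ℝ} (hω : Form M ω) (s : S) :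
    omo ω (some s) (some s) = 0 := form_self hω s

theorem omo_skew {M : CoxeterMatrix S} {ω : S → S → ℝ} (hω : Form M ω) (s t : S) :
    omo ω (some t) (some s) = - omo ω (some s) (some t) := hω.skew s t

variable [Fintype S] [DecidableEq S] (M : CoxeterMatrix S)

/-- the representation -/
noncomputable def rep {ω : S → S → ℝ} (hω : Form M ω) :
    Artin M →* GeneralLinearGroup (Option S) ℝ :=
  lift M (fun s => tvu (omo ω) (some s) (omo_self hω s)) (by
    intro s t
    have hc : ∀ (a b : GeneralLinearGroup (Option S) ℝ) (n : ℕ),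
        ((alt a b n : GeneralLinearGroup (Option S) ℝ) : Matrix (Option S) (Option S) ℝ) =
        alt (a : Matrix (Option S) (Option S) ℝ) (b : Matrix (Option S) (Option S) ℝ) n :=
      fun a b n => alt_map (Units.coeHom _) a b n
    apply Units.ext
    rw [hc, hc]
    simp only [tvu_val]
    by_cases hst : s = t
    · subst hst
      rfl
    · have := alt_trv_pair (omo ω) (some s) (some t) (omo_self hω s) (omo_self hω t)
        (omo_skew hω s t) (M.M s t) (M.off_diagonal s t hst) (hω.val s t hst)
      rwa [trv_eq, trv_eq] at this)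

variable {M}
variable {ω : S → S → ℝ} (hω : Form M ω)

theorem rep_gen (s : S) : rep M hω (gen M s) = tvu (omo ω) (some s) (omo_self hω s) :=
  lift_gen _ _ _ _

theorem rep_gen_zpow (s : S) (k : ℤ) :
    (rep M hω (gen M s ^ k) : Matrix (Option S) (Option S) ℝ) = tvz (omo ω) (some s) (k : ℝ) := by
  rw [map_zpow, rep_gen, tvu_zpow]

/-- rows outside `T` are trivial -/
theorem rep_row (T : Set S) (x : Artin M) (hx : x ∈ Subgroup.closure (gen M '' T))
    (i : Option S) (hi : ∀ s ∈ T, i ≠ some s) (j : Option S) :
    (rep M hω x : Matrix (Option S) (Option S) ℝ) i j = if i = j then 1 else 0 := by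
  induction hx using Subgroup.closure_induction generalizing j with
  | mem x hx =>
    obtain ⟨s, hs, rfl⟩ := hx
    have := rep_gen_zpow hω s 1
    rw [zpow_one] at this
    rw [this]
    simp [tvz, hi s hs]
  | one => 
    rw [map_one, Units.val_one, Matrix.one_apply]
  | mul x y _ _ ihx ihy =>
    rw [map_mul, Units.val_mul, Matrix.mul_apply]
    simp only [ihx]
    rw [Finset.sum_eq_single i]
    · rw [if_pos rfl, one_mul, ihy]
    · intro k _ hk
      rw [if_neg (Ne.symm hk), zero_mul]
    · intro h
      exact absurd (Finset.mem_univ i) h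
  | inv x _ ih =>
    have h1 : ((rep M hω x : Matrix (Option S) (Option S) ℝ) *
        (rep M hω x⁻¹ : Matrix (Option S) (Option S) ℝ)) i j = if i = j then 1 else 0 := by
      rw [← Units.val_mul, ← map_mul, mul_inv_cancel, map_one, Units.val_one, Matrix.one_apply]
    rw [Matrix.mul_apply] at h1
    simp only [ih] at h1
    rw [Finset.sum_eq_single i] at h1
    · rwa [if_pos rfl, one_mul] at h1
    · intro k _ hk
      rw [if_neg (Ne.symm hk), zero_mul]
    · intro h
      exact absurd (Finset.mem_univ i) h

theorem closure_gen_univ : Subgroup.closure (gen M '' Set.univ) = ⊤ := by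
  rw [Set.image_univ]
  exact PresentedGroup.closure_range_of _

theorem rep_none (x : Artin M) (j : Option S) :
    (rep M hω x : Matrix (Option S) (Option S) ℝ) none j = if none = j then 1 else 0 := by
  apply rep_row hω Set.univ x _ none (by simp)
  rw [closure_gen_univ]
  trivial

/-- the restriction to the block of two generators -/
theorem rep_zero (s t : S) (x : Artin M) (hx : x ∈ Subgroup.closure {gen M s, gen M t})
    (i j : Option S) (his : i ≠ some s) (hit : i ≠ some t) (hj : j = some s ∨ j = some t) :
    (rep M hω x : Matrix (Option S) (Option S) ℝ) i j = 0 := by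
  have h := rep_row hω {s, t} x (by rwa [Set.image_pair]) i (by
    rintro u (rfl | hu)
    · exact his
    · rw [Set.mem_singleton_iff] at hu
      subst hu
      exact hit) j
  rw [h, if_neg]
  rintro rfl
  rcases hj with rfl | rfl
  · exact his rfl
  · exact hit rfl

/-- the block homomorphism -/
noncomputable def bl (s t : S) (hst : s ≠ t) :
    (Subgroup.closure {gen M s, gen M t} : Subgroup (Artin M)) →* GeneralLinearGroup (Fin 2) ℝ :=
  blk ((rep M hω).comp (Subgroup.closure {gen M s, gen M t}).subtype) (some s) (some t)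
    (fun h => hst (Option.some_injective _ h))
    (fun x i j h4 h5 h6 => rep_zero hω s t x.1 x.2 i j h4 h5 h6)

theorem bl_val (s t : S) (hst : s ≠ t)
    (x : (Subgroup.closure {gen M s, gen M t} : Subgroup (Artin M))) :
    (bl hω s t hst x : Matrix (Fin 2) (Fin 2) ℝ) =
      (rep M hω x.1 : Matrix (Option S) (Option S) ℝ).submatrix ![some s, some t] ![some s, some t] :=
  rfl

theorem bl_s (s t : S) (hst : s ≠ t) (k : ℤ) (hk : gen M s ^ k ∈ Subgroup.closure {gen M s, gen M t}) :
    (bl hω s t hst ⟨gen M s ^ k, hk⟩ : Matrix (Fin 2) (Fin 2) ℝ) = !![1, k * ω s t; 0, 1] := by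
  rw [bl_val]
  simp only
  rw [rep_gen_zpow]
  ext i j
  fin_cases i <;> fin_cases j <;> simp [tvz, omo, form_self hω s, hst, Ne.symm hst]

theorem bl_t (s t : S) (hst : s ≠ t) (k : ℤ) (hk : gen M t ^ k ∈ Subgroup.closure {gen M s, gen M t}) :
    (bl hω s t hst ⟨gen M t ^ k, hk⟩ : Matrix (Fin 2) (Fin 2) ℝ) = !![1, 0; -(k * ω s t), 1] := by
  rw [bl_val]
  simp only
  rw [rep_gen_zpow]
  ext i j
  fin_cases i <;> fin_cases j <;>
    simp [tvz, omo, form_self hω t, hst, Ne.symm hst, hω.skew s t]

/-- label at least three -/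
theorem inj_three_aux {s t : S} (hst : s ≠ t) (hm : 3 ≤ M.M s t)
    (hc : ω s t = 2 * Real.cos (Real.pi / M.M s t)) (x : Artin M)
    (hx : x ∈ Subgroup.closure {gen M s, gen M t}) (hlen : len M x = 1)
    (hf : rep M hω x = 1) : x = 1 := by
  let H : Subgroup (Artin M) := Subgroup.closure {gen M s, gen M t}
  have hs : gen M s ∈ H := Subgroup.subset_closure (by simp)
  have ht : gen M t ∈ H := Subgroup.subset_closure (by simp)
  let s' : H := ⟨gen M s, hs⟩
  let t' : H := ⟨gen M t, ht⟩
  have h := Pool.Agent.helper80.LT.dihedral H s' t' (M.M s t) (Or.inr hm) (by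
      apply H.subtype_injective
      rw [alt_map, alt_map]
      exact gen_rel M s t) ((len M).comp H.subtype) (len_gen M s) (len_gen M t)
    (bl hω s t hst) (by
      have := bl_s hω s t hst 1 (by rw [zpow_one]; exact hs)
      simp only [zpow_one, Int.cast_one, one_mul] at this
      rw [← hc]
      exact this) (by
      have := bl_t hω s t hst 1 (by rw [zpow_one]; exact ht)
      simp only [zpow_one, Int.cast_one, one_mul] at this
      rw [← hc]
      exact this)
    ⟨x, hx⟩ (by
      have h4 : ({s', t'} : Set H) = ((↑) : H → Artin M) ⁻¹' {gen M s, gen M t} := by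
        ext y
        simp only [Set.mem_insert_iff, Set.mem_singleton_iff, Set.mem_preimage, Subtype.ext_iff, s', t']
      rw [h4, Subgroup.closure_closure_coe_preimage]
      exact Subgroup.mem_top _) hlen (by
      apply Units.ext
      rw [bl_val]
      simp only
      rw [hf, Units.val_one, Units.val_one]
      apply Matrix.submatrix_one
      intro i j hij
      fin_cases i <;> fin_cases j <;> simp_all)
  exact congrArg Subtype.val h

theorem inj_three {s t : S} (hst : s ≠ t) (hm : 3 ≤ M.M s t) (x : Artin M)
    (hx : x ∈ Subgroup.closure {gen M s, gen M t}) (hlen : len M x = 1)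
    (hf : rep M hω x = 1) : x = 1 := by
  rcases hω.val s t hst with h | h
  · exact inj_three_aux hω hst hm h x hx hlen hf
  · apply inj_three_aux hω hst.symm (by rwa [M.symmetric t s]) _ x _ hlen hf
    · rw [hω.skew s t, h, M.symmetric t s]
      simp
    · rw [Set.pair_comm]
      exact hx

/-- commuting generators -/
theorem gen_comm {s t : S} (hm : M.M s t = 2) : gen M s * gen M t = gen M t * gen M s := by
  have h := gen_rel M s t
  rw [hm] at h
  simpa [alt] using h

/-- label two: the transvections are independent -/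
theorem two_zero {s t : S} (hst : s ≠ t) (hm : M.M s t = 2) (a b : ℤ)
    (h : rep M hω (gen M s ^ a * gen M t ^ b) = 1) : a = 0 ∧ b = 0 := by
  have h0 : ω s t = 0 := by
    have := hω.val s t hst
    rw [hm] at this
    have h2 : Real.cos (Real.pi / (2 : ℕ)) = 0 := by
      rw [Nat.cast_ofNat, Real.cos_pi_div_two]
    rw [h2] at this
    simpa using this
  have h1 : (rep M hω (gen M s ^ a * gen M t ^ b) : Matrix (Option S) (Option S) ℝ) =
      tvz (omo ω) (some s) (a : ℝ) * tvz (omo ω) (some t) (b : ℝ) := by
    rw [map_mul, Units.val_mul, rep_gen_zpow, rep_gen_zpow]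
  rw [h, Units.val_one] at h1
  have e1 := congrFun (congrFun h1 (some s)) none
  have e2 := congrFun (congrFun h1 (some t)) none
  rw [tvz_mul_entry] at e1 e2
  simp only [omo, h0, Matrix.one_apply] at e1 e2
  simp [hst, Ne.symm hst] at e1 e2
  exact ⟨by exact_mod_cast e1.symm, by exact_mod_cast e2.symm⟩

theorem mem_two {s t : S} (hm : M.M s t = 2) (x : Artin M)
    (hx : x ∈ Subgroup.closure {gen M s, gen M t}) : ∃ a b : ℤ, x = gen M s ^ a * gen M t ^ b := by
  have hc : Commute (gen M s) (gen M t) := gen_comm hm
  induction hx using Subgroup.closure_induction with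
  | mem x hx =>
    rcases hx with rfl | hx
    · exact ⟨1, 0, by simp⟩
    · rw [Set.mem_singleton_iff] at hx
      subst hx
      exact ⟨0, 1, by simp⟩
  | one => exact ⟨0, 0, by simp⟩
  | mul x y _ _ ihx ihy =>
    obtain ⟨a, b, rfl⟩ := ihx
    obtain ⟨c, d, rfl⟩ := ihy
    refine ⟨a + c, b + d, ?_⟩
    rw [zpow_add, zpow_add]
    have h1 : gen M t ^ b * gen M s ^ c = gen M s ^ c * gen M t ^ b :=
      ((hc.zpow_zpow c b).symm)
    calc gen M s ^ a * gen M t ^ b * (gen M s ^ c * gen M t ^ d)
        = gen M s ^ a * (gen M t ^ b * gen M s ^ c) * gen M t ^ d := by group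
      _ = _ := by rw [h1]; group
  | inv x _ ih =>
    obtain ⟨a, b, rfl⟩ := ih
    refine ⟨-a, -b, ?_⟩
    rw [mul_inv_rev, zpow_neg, zpow_neg]
    exact ((hc.zpow_zpow a b).symm.inv_inv)

/-- injectivity on the spherical parabolics of rank two -/
theorem inj_pair {s t : S} (hst : s ≠ t) (hm : M.M s t ≠ 0) (x : Artin M)
    (hx : x ∈ Subgroup.closure {gen M s, gen M t}) (hlen : len M x = 1)
    (hf : rep M hω x = 1) : x = 1 := by
  have h1 := M.off_diagonal s t hst
  rcases Nat.lt_or_ge (M.M s t) 3 with h | h
  · have h2 : M.M s t = 2 := by omega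
    obtain ⟨a, b, rfl⟩ := mem_two h2 x hx
    obtain ⟨rfl, rfl⟩ := two_zero hω hst h2 a b hf
    simp
  · exact inj_three hω hst h x hx hlen hf

theorem inj_type (T : Finset S) (hT : T.card ≤ 2 ∧ ∀ s ∈ T, ∀ t ∈ T, M.M s t ≠ 0) (x : Artin M)
    (hx : x ∈ sgp M T) (hlen : len M x = 1) (hf : rep M hω x = 1) : x = 1 := by
  unfold sgp at hx
  have h3 : T.card = 0 ∨ T.card = 1 ∨ T.card = 2 := by omega
  rcases h3 with h | h | h
  · rw [Finset.card_eq_zero] at h
    subst h
    rw [Finset.coe_empty, Set.image_empty, Subgroup.closure_empty, Subgroup.mem_bot] at hx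
    exact hx
  · rw [Finset.card_eq_one] at h
    obtain ⟨s, rfl⟩ := h
    rw [Finset.coe_singleton, Set.image_singleton, Subgroup.mem_closure_singleton] at hx
    obtain ⟨k, rfl⟩ := hx
    rw [map_zpow, len_gen, ← ofAdd_zsmul] at hlen
    have h5 : k = 0 := by
      have := congrArg Multiplicative.toAdd hlen
      simpa using this
    rw [h5, zpow_zero]
  · rw [Finset.card_eq_two] at h
    obtain ⟨s, t, hst, rfl⟩ := h
    rw [Finset.coe_pair, Set.image_pair] at hx
    exact inj_pair hω hst (hT.2 s (by simp) t (by simp)) x hx hlen hf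

end rep

/-! ### restriction of scalars -/

theorem gl_embed (n K : Type) [Fintype n] [DecidableEq n] [Field K] [NumberField K] :
    ∃ (N : ℕ) (φ : GeneralLinearGroup n K →* GeneralLinearGroup (Fin N) ℚ),
      Function.Injective φ := by
  classical
  let b := Module.finBasis ℚ K
  let d := Module.finrank ℚ K
  let L : K →+* Matrix (Fin d) (Fin d) ℚ := (Algebra.leftMulMatrix b).toRingHom
  have hL : Function.Injective L := Algebra.leftMulMatrix_injective b
  let Φ₁ : Matrix n n K →+* Matrix n n (Matrix (Fin d) (Fin d) ℚ) := L.mapMatrix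
  have h1 : Function.Injective Φ₁ := by
    intro A B h
    ext i j
    exact hL (congrFun (congrFun h i) j)
  let Φ₂ := Matrix.compRingEquiv n (Fin d) ℚ
  let e : n × Fin d ≃ Fin (Fintype.card (n × Fin d)) := Fintype.equivFin _
  let Φ₃ := Matrix.reindexAlgEquiv ℚ ℚ e
  let Ψ : Matrix n n K →+* Matrix (Fin (Fintype.card (n × Fin d))) (Fin (Fintype.card (n × Fin d))) ℚ :=
    (Φ₃.toRingEquiv.toRingHom).comp ((Φ₂.toRingHom).comp Φ₁)
  have hΨ : Function.Injective Ψ := by
    intro A B h
    exact h1 (Φ₂.injective (Φ₃.injective h))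
  refine ⟨Fintype.card (n × Fin d), Units.map (Ψ : _ →* _), ?_⟩
  exact Units.map_injective hΨ

/-! ### the representation over a number field -/

theorem artin_rep2 {S : Type} [Finite S] (M : CoxeterMatrix S) :
    ∃ (n : ℕ) (ρ : Artin M →* Matrix.GeneralLinearGroup (Fin n) ℚ), ∀ T : DTy M,
      ∀ x ∈ sgp M T.1, ρ x = 1 → x = 1 := by
  classical
  have := Fintype.ofFinite S
  obtain ⟨ω, hω⟩ := Pool.Agent.helper60.LT.exists_form M
  let A : Set ℝ := Set.range fun p : S × S => ω p.1 p.2
  let K := IntermediateField.adjoin ℚ A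
  have hfin : FiniteDimensional ℚ K := IntermediateField.finiteDimensional_adjoin (by
    rintro x ⟨⟨s, t⟩, rfl⟩
    exact isIntegral_form M hω s t)
  have hNF : NumberField K := { to_charZero := inferInstance, to_finiteDimensional := hfin }
  let ωK : S → S → K := fun s t => ⟨ω s t, IntermediateField.subset_adjoin ℚ A ⟨(s, t), rfl⟩⟩
  have hωK : ∀ s, omo ωK (some s) (some s) = 0 := fun s => Subtype.ext (form_self hω s)
  have hinj : Function.Injective (algebraMap K ℝ) := (algebraMap K ℝ).injective
  let μ : GeneralLinearGroup (Option S) K →* GeneralLinearGroup (Option S) ℝ :=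
    GeneralLinearGroup.map (algebraMap K ℝ)
  have hμ : Function.Injective μ := by
    intro a b hab
    apply Units.ext
    have h4 : (μ a : Matrix (Option S) (Option S) ℝ) = (μ b : Matrix (Option S) (Option S) ℝ) := by
      rw [hab]
    ext i j
    have h5 := congrFun (congrFun h4 i) j
    have h6 : algebraMap K ℝ ((a : Matrix (Option S) (Option S) K) i j) =
      algebraMap K ℝ ((b : Matrix (Option S) (Option S) K) i j) := h5
    rw [hinj h6]
  have homo : (fun a b => algebraMap K ℝ (omo ωK a b)) = omo ω := by
    funext a b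
    rcases a with _ | a <;> rcases b with _ | b
    · exact map_zero _
    · change algebraMap K ℝ (-1) = -1
      rw [map_neg, map_one]
    · exact map_one _
    · rfl
  have hμtv : ∀ s, μ (tvu (omo ωK) (some s) (hωK s)) = tvu (omo ω) (some s) (omo_self hω s) := by
    intro s
    apply Units.ext
    have h4 : (μ (tvu (omo ωK) (some s) (hωK s)) : Matrix (Option S) (Option S) ℝ) =
      (tvz (omo ωK) (some s) 1).map (algebraMap K ℝ) := rfl
    rw [h4, tvz_map, tvu_val, map_one, homo]
  let ρ : Artin M →* GeneralLinearGroup (Option S) K :=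
    lift M (fun s => tvu (omo ωK) (some s) (hωK s)) (by
      intro s t
      apply hμ
      rw [alt_map, alt_map, hμtv, hμtv]
      have := congrArg (rep M hω) (gen_rel M s t)
      rwa [alt_map, alt_map, rep_gen, rep_gen] at this)
  have hρgen : ∀ s, ρ (gen M s) = tvu (omo ωK) (some s) (hωK s) := fun s => lift_gen _ _ _ _
  have hμρ : μ.comp ρ = rep M hω := by
    apply artin_hom_ext
    intro s
    rw [MonoidHom.comp_apply, hρgen, hμtv, rep_gen]
  let two : Kˣ := Units.mk0 2 (by norm_num)
  let c : GeneralLinearGroup (Option S) K := GeneralLinearGroup.scalar (Option S) two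
  have hc : ∀ x, c * x = x * c := fun x => GeneralLinearGroup.scalar_commute two x
  obtain ⟨N, φ, hφ⟩ := gl_embed (Option S) K
  refine ⟨N, φ.comp (twist M ρ c hc), fun T x hx hf => ?_⟩
  have hfx : twist M ρ c hc x = 1 := by
    apply hφ
    rw [map_one]
    exact hf
  have h5 : twist M ρ c hc x = c ^ (Multiplicative.toAdd (len M x)) * ρ x := rfl
  have h6 : μ (twist M ρ c hc x) = μ c ^ (Multiplicative.toAdd (len M x)) * rep M hω x := by
    rw [h5, map_mul, map_zpow, ← hμρ]
    rfl
  have hcpow : ∀ k : ℤ, ((μ c ^ k : GeneralLinearGroup (Option S) ℝ) :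
      Matrix (Option S) (Option S) ℝ) = (2 : ℝ) ^ k • (1 : Matrix (Option S) (Option S) ℝ) := by
    intro k
    have e1 : μ c = GeneralLinearGroup.scalar (Option S) (Units.mk0 (2 : ℝ) (by norm_num)) := by
      apply Units.ext
      ext i j
      change algebraMap K ℝ ((Matrix.scalar (Option S) (2 : K)) i j) =
        (Matrix.scalar (Option S) (2 : ℝ)) i j
      simp only [Matrix.scalar_apply, Matrix.diagonal_apply]
      split_ifs
      · exact map_ofNat _ 2
      · exact map_zero _
    rw [e1, ← map_zpow]
    ext i j
    change (Matrix.scalar (Option S) (((Units.mk0 (2 : ℝ) (by norm_num)) ^ k : ℝˣ) : ℝ)) i j = _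
    rw [Units.val_zpow_eq_zpow_val]
    simp only [Units.val_mk0, Matrix.scalar_apply, Matrix.diagonal_apply, Matrix.smul_apply,
      Matrix.one_apply, smul_eq_mul]
    split_ifs <;> simp
  have hlen : len M x = 1 := by
    have h7 := congrArg (fun g : GeneralLinearGroup (Option S) ℝ =>
      (g : Matrix (Option S) (Option S) ℝ) none none) h6
    rw [hfx, map_one, Units.val_one, Units.val_mul, hcpow, smul_mul_assoc, one_mul,
      Matrix.smul_apply, rep_none, Matrix.one_apply_eq, if_pos rfl, smul_eq_mul, mul_one] at h7
    have h9 : Multiplicative.toAdd (len M x) = 0 := by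
      by_contra hne
      exact hne ((zpow_eq_one_iff_right₀ (by norm_num) (by norm_num)).1 h7.symm)
    exact h9
  have hrep : rep M hω x = 1 := by
    rw [hlen, toAdd_one, zpow_zero, one_mul, hfx, map_one] at h6
    exact h6.symm
  exact inj_type hω T.1 T.2 x hx hlen hrep

end Pool.Agent.helper74.FJ3
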