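import Pool.Agent.helper74.FJ3.C3

set_option autoImplicit false
set_option linter.unusedSectionVars false
set_option linter.unusedVariables false

/-!
# Module FJ3-C3, second part: the girth, from the matrix statement C1
-/

namespace Pool.Agent.helper74.FJ3

open Pool.Agent.helper34.FJ3
open Pool.Agent.helper36.LT (Artin gen alt artinRels trv Form)
open Pool.Agent.helper50.LT (len len_gen)
open Matrix (GeneralLinearGroup)

/-- the statement of module C1 -/
def MatGirth : Prop := ∀ (m : ℕ) (hm : 3 ≤ m) (j : ℕ) (a b : ℕ → ℤ) (hj : 0 < j) (hjm : j < m)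
    (hab : ∀ i, i < j → a i ≠ 0 ∧ b i ≠ 0) (hsum : ∑ i ∈ Finset.range j, (a i + b i) = 0),
    ((List.range j).map fun i =>
      (!![1, (a i : ℝ) * (2 * Real.cos (Real.pi / m)); 0, 1] *
        !![1, 0; -((b i : ℝ) * (2 * Real.cos (Real.pi / m))), 1] :
          Matrix (Fin 2) (Fin 2) ℝ)).prod ≠ 1

theorem len_prod {S : Type} (M : CoxeterMatrix S) (s t : S) (a b : ℕ → ℤ) (j : ℕ) :
    Multiplicative.toAdd (len M ((List.range j).map fun i => gen M s ^ a i * gen M t ^ b i).prod) =
      ∑ i ∈ Finset.range j, (a i + b i) := by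
  induction j with
  | zero => simp
  | succ j ih =>
    rw [List.range_succ, List.map_append, List.prod_append, map_mul, toAdd_mul, ih,
      Finset.sum_range_succ]
    congr 1
    simp only [List.map_cons, List.map_nil, List.prod_cons, List.prod_nil, mul_one, map_mul,
      map_zpow, len_gen, toAdd_mul, toAdd_zpow, toAdd_ofAdd, smul_eq_mul]

theorem artin_girth_of (hC1 : MatGirth) {S : Type} [Finite S] (M : CoxeterMatrix S) : Girth M := by
  classical
  have := Fintype.ofFinite S
  obtain ⟨ω, hω⟩ := Pool.Agent.helper60.LT.exists_form M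
  intro s t hst hm j a b hj hjm hab hprod
  have hsum : ∑ i ∈ Finset.range j, (a i + b i) = 0 := by
    rw [← len_prod M s t a b j, hprod, map_one, toAdd_one]
  have hrep : rep M hω ((List.range j).map fun i => gen M s ^ a i * gen M t ^ b i).prod = 1 := by
    rw [hprod, map_one]
  have h1 := M.off_diagonal s t hst
  rcases Nat.lt_or_ge (M.M s t) 3 with h | h
  · have h2 : M.M s t = 2 := by omega
    have hj1 : j = 1 := by omega
    subst hj1
    have h3 : ((List.range 1).map fun i => gen M s ^ a i * gen M t ^ b i).prod =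
        gen M s ^ a 0 * gen M t ^ b 0 := by simp
    rw [h3] at hrep
    exact (hab 0 (by norm_num)).1 (two_zero hω hst h2 _ _ hrep).1
  · let H : Subgroup (Artin M) := Subgroup.closure {gen M s, gen M t}
    have hs : gen M s ∈ H := Subgroup.subset_closure (by simp)
    have ht : gen M t ∈ H := Subgroup.subset_closure (by simp)
    let g : ℕ → H := fun i => ⟨gen M s ^ a i, H.zpow_mem hs _⟩ * ⟨gen M t ^ b i, H.zpow_mem ht _⟩
    have hg : ((List.range j).map g).prod = 1 := by
      apply H.subtype_injective
      rw [map_list_prod, map_one, ← hprod, List.map_map]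
      rfl
    let Ψ : H →* Matrix (Fin 2) (Fin 2) ℝ := (Units.coeHom _).comp (bl hω s t hst)
    have hΨ : ((List.range j).map fun i => (!![1, (a i : ℝ) * ω s t; 0, 1] *
        !![1, 0; -((b i : ℝ) * ω s t), 1] : Matrix (Fin 2) (Fin 2) ℝ)).prod = 1 := by
      have h4 := congrArg Ψ hg
      rw [map_list_prod, map_one, List.map_map] at h4
      rw [← h4]
      congr 1
      apply List.map_congr_left
      intro i _
      have e1 : (Ψ ∘ g) i = Ψ ⟨gen M s ^ a i, H.zpow_mem hs _⟩ *
          Ψ ⟨gen M t ^ b i, H.zpow_mem ht _⟩ := map_mul Ψ _ _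
      have e2 : Ψ ⟨gen M s ^ a i, H.zpow_mem hs _⟩ = !![1, (a i : ℝ) * ω s t; 0, 1] :=
        bl_s hω s t hst (a i) _
      have e3 : Ψ ⟨gen M t ^ b i, H.zpow_mem ht _⟩ = !![1, 0; -((b i : ℝ) * ω s t), 1] :=
        bl_t hω s t hst (b i) _
      rw [e1, e2, e3]
    rcases hω.val s t hst with hc | hc
    · rw [hc] at hΨ
      exact hC1 _ h j a b hj hjm hab hsum hΨ
    · rw [hc] at hΨ
      refine hC1 _ h j (fun i => - a i) (fun i => - b i) hj hjm
        (fun i hi => ⟨neg_ne_zero.2 (hab i hi).1, neg_ne_zero.2 (hab i hi).2⟩) ?_ ?_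
      · have : ∑ i ∈ Finset.range j, (- a i + - b i) = -∑ i ∈ Finset.range j, (a i + b i) := by
          rw [← Finset.sum_neg_distrib]
          exact Finset.sum_congr rfl fun i _ => by ring
        rw [this, hsum, neg_zero]
      · rw [← hΨ]
        congr 1
        apply List.map_congr_left
        intro i _
        push_cast
        simp only [neg_mul, mul_neg]

end Pool.Agent.helper74.FJ3
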