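import Pool.Agent.helper74.FJ3.Sd1

set_option autoImplicit false

/-!
# Module SD-b of the FJ3 project: the barycentric subdivision is non-positively curved
-/

namespace Pool.Agent.helper74.FJ3

open Pool.Agent.helper34.FJ2 Pool.Agent.helper34.FJ3 Pool.Agent.helper68.FJ3
open scoped BigOperators
open InnerProductGeometry

variable {V : Type}

/-! ## flags -/

theorem isSimp_cases {X : Complex2 V} {s : Set V} (h : IsSimp X s) :
    (s.ncard = 1 ∧ ∃ a, s = {a}) ∨ (s.ncard = 2 ∧ ∃ a b, X.edge a b ∧ s = {a, b}) ∨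
      (s.ncard = 3 ∧ ∃ a b c, X.tri a b c ∧ s = {a, b, c}) := by
  rcases h with ⟨a, rfl⟩ | ⟨a, b, h, rfl⟩ | ⟨a, b, c, h, rfl⟩
  · exact Or.inl ⟨Set.ncard_singleton a, a, rfl⟩
  · exact Or.inr (Or.inl ⟨Set.ncard_pair (X.edge_ne h), a, b, h, rfl⟩)
  · exact Or.inr (Or.inr ⟨ncard_three (X.edge_ne (X.tri_edge _ _ _ h))
      (X.edge_ne (X.tri_edge' h)) (X.edge_ne (X.tri_edge'' h)), a, b, c, h, rfl⟩)

theorem card_bounds {X : Complex2 V} (s : Simp X) : 1 ≤ s.1.ncard ∧ s.1.ncard ≤ 3 := by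
  rcases isSimp_cases s.2 with ⟨h, _⟩ | ⟨h, _⟩ | ⟨h, _⟩ <;> omega

theorem card_one {X : Complex2 V} {s : Simp X} (h : s.1.ncard = 1) : ∃ a, s.1 = {a} := by
  rcases isSimp_cases s.2 with ⟨_, h'⟩ | ⟨h', _⟩ | ⟨h', _⟩
  · exact h'
  · omega
  · omega

theorem card_two {X : Complex2 V} {s : Simp X} (h : s.1.ncard = 2) :
    ∃ a b, X.edge a b ∧ s.1 = {a, b} := by
  rcases isSimp_cases s.2 with ⟨h', _⟩ | ⟨_, h'⟩ | ⟨h', _⟩
  · omega
  · exact h'
  · omega

theorem card_three {X : Complex2 V} {s : Simp X} (h : s.1.ncard = 3) :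
    ∃ a b c, X.tri a b c ∧ s.1 = {a, b, c} := by
  rcases isSimp_cases s.2 with ⟨h', _⟩ | ⟨h', _⟩ | ⟨_, h'⟩
  · omega
  · omega
  · exact h'

theorem card_lt {X : Complex2 V} {s t : Simp X} (h : s.1 ⊂ t.1) : s.1.ncard < t.1.ncard :=
  Set.ncard_lt_ncard h (isSimp_finite t.2)

theorem card_ne {X : Complex2 V} {s t : Simp X} (h : SCmp s t) : s.1.ncard ≠ t.1.ncard := by
  rcases h with h | h
  · exact (card_lt h).ne
  · exact (card_lt h).ne'

theorem ss_of_card {X : Complex2 V} {s t : Simp X} (h : SCmp s t) (h' : s.1.ncard < t.1.ncard) :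
    s.1 ⊂ t.1 := by
  rcases h with h | h
  · exact h
  · exact absurd (card_lt h) (by omega)

theorem third {X : Complex2 V} {a b c x y : V} (h : X.tri a b c) (hx : x ∈ ({a, b, c} : Set V))
    (hy : y ∈ ({a, b, c} : Set V)) (hxy : x ≠ y) :
    ∃ z, X.tri x y z ∧ ({a, b, c} : Set V) = {x, y, z} := by
  rcases hx with rfl | rfl | rfl <;> rcases hy with rfl | rfl | rfl
  · exact absurd rfl hxy
  · exact ⟨c, h, rfl⟩
  · exact ⟨b, X.tri_swap' h, by ext; simp; tauto⟩
  · exact ⟨c, X.tri_swap _ _ _ h, by ext; simp; tauto⟩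
  · exact absurd rfl hxy
  · exact ⟨a, X.tri_rot _ _ _ h, by ext; simp; tauto⟩
  · exact ⟨b, X.tri_rot _ _ _ (X.tri_rot _ _ _ h), by ext; simp; tauto⟩
  · exact ⟨a, X.tri_swap' (X.tri_rot _ _ _ (X.tri_rot _ _ _ h)), by ext; simp; tauto⟩
  · exact absurd rfl hxy

/-- a flag of simplices -/
theorem flag {X : Complex2 V} {r s t : Simp X} (h1 : r.1 ⊂ s.1) (h2 : s.1 ⊂ t.1) :
    ∃ a b c, X.tri a b c ∧ r.1 = {a} ∧ s.1 = {a, b} ∧ t.1 = {a, b, c} := by
  have c1 := card_lt h1
  have c2 := card_lt h2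
  have b1 := card_bounds r
  have b2 := card_bounds t
  obtain ⟨x, hx⟩ := card_one (s := r) (by omega)
  obtain ⟨y, z, hyz, hs⟩ := card_two (s := s) (by omega)
  obtain ⟨a, b, c, habc, ht⟩ := card_three (s := t) (by omega)
  have key : ∃ u, x ≠ u ∧ s.1 = {x, u} := by
    have : x ∈ s.1 := h1.1 (by rw [hx]; rfl)
    rw [hs] at this
    rcases this with rfl | rfl
    · exact ⟨z, X.edge_ne hyz, hs⟩
    · exact ⟨y, (X.edge_ne hyz).symm, by rw [hs, Set.pair_comm]⟩
  obtain ⟨u, hxu, hsu⟩ := key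
  obtain ⟨w, hw, hw'⟩ := third habc (x := x) (y := u)
    (by rw [← ht]; exact h2.1 (by rw [hsu]; simp)) (by rw [← ht]; exact h2.1 (by rw [hsu]; simp))
    hxu
  exact ⟨x, u, w, hw, hx, hsu, by rw [ht, hw']⟩

theorem pair_inj {v a b : V} (h : ({v, a} : Set V) = {v, b}) (hb : v ≠ b) : a = b := by
  have : b ∈ ({v, a} : Set V) := by rw [h]; simp
  rcases this with h | h
  · exact absurd h.symm hb
  · exact h.symm

/-- a flag with prescribed vertices -/
theorem flag' {X : Complex2 V} {r s t : Simp X} (h1 : r.1 ⊂ s.1) (h2 : s.1 ⊂ t.1) {a b : V}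
    (hr : r.1 = {a}) (hs : s.1 = {a, b}) (hab : a ≠ b) :
    ∃ c, X.tri a b c ∧ t.1 = {a, b, c} := by
  obtain ⟨a', b', c, h, e1, e2, e3⟩ := flag h1 h2
  have ha : a' = a := Set.singleton_injective (e1.symm.trans hr)
  subst ha
  have hb : b' = b := pair_inj (e2.symm.trans hs) hab
  subst hb
  exact ⟨c, h, e3⟩

theorem single_sub {X : Complex2 V} {p q : Simp X} (hp : p.1.ncard = 1) (h : p.1 ⊂ q.1) {x y : V}
    (hq : q.1 = {x, y}) : p.1 = {x} ∨ p.1 = {y} := by
  obtain ⟨a, ha⟩ := card_one hp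
  have : a ∈ q.1 := h.1 (by rw [ha]; rfl)
  rw [hq] at this
  rcases this with rfl | rfl
  · exact Or.inl ha
  · exact Or.inr ha

theorem pair_sup {X : Complex2 V} {p q : Simp X} {x : V} (hp : p.1 = {x}) (h : p.1 ⊂ q.1)
    (hq : q.1.ncard = 2) : ∃ y, x ≠ y ∧ q.1 = {x, y} := by
  obtain ⟨a, b, hab, hq'⟩ := card_two hq
  have : x ∈ q.1 := h.1 (by rw [hp]; rfl)
  rw [hq'] at this
  rcases this with rfl | rfl
  · exact ⟨b, X.edge_ne hab, hq'⟩
  · exact ⟨a, (X.edge_ne hab).symm, by rw [hq', Set.pair_comm]⟩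

/-! ## cycles of the link -/

/-- a simple cycle of the link of `s` in the barycentric subdivision -/
structure Cyc {X : Complex2 V} (s : Simp X) (n : ℕ) (b : ℕ → Simp X) : Prop where
  three : 3 ≤ n
  per : b n = b 0
  inj : ∀ i j, i < n → j < n → b i = b j → i = j
  tri : ∀ i, i < n → (sd X).tri s (b i) (b (i + 1))

theorem mod_per {α : Type} {n : ℕ} {b : ℕ → α} (h : b n = b 0) {i : ℕ} (hi : i ≤ n) :
    b (i % n) = b i := by
  rcases Nat.lt_or_ge i n with h' | h'
  · rw [Nat.mod_eq_of_lt h']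
  · have : i = n := le_antisymm hi h'
    subst this
    rw [Nat.mod_self, h]

theorem cyc_rot {X : Complex2 V} {s : Simp X} {n : ℕ} {b : ℕ → Simp X} (h : Cyc s n b) :
    Cyc s n (fun i => b ((i + 1) % n)) ∧ ∀ F : Simp X → Simp X → ℝ,
      ∑ i ∈ Finset.range n, F (b ((i + 1) % n)) (b ((i + 1 + 1) % n)) =
        ∑ i ∈ Finset.range n, F (b i) (b (i + 1)) := by
  have h3 := h.three
  have hn : 0 < n := by omega
  have hmod : ∀ i, (i + 1) % n = (i % n + 1) % n := by
    intro i
    rw [Nat.mod_add_mod]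
  refine ⟨⟨h3, ?_, ?_, ?_⟩, ?_⟩
  · change b ((n + 1) % n) = b ((0 + 1) % n)
    rw [Nat.add_mod_left]
  · intro i j hi hj hij
    have := h.inj _ _ (Nat.mod_lt _ hn) (Nat.mod_lt _ hn) hij
    rcases Nat.lt_or_ge (i + 1) n with h1 | h1 <;> rcases Nat.lt_or_ge (j + 1) n with h2 | h2
    · rw [Nat.mod_eq_of_lt h1, Nat.mod_eq_of_lt h2] at this
      omega
    · have e : j + 1 = n := by omega
      rw [Nat.mod_eq_of_lt h1, e, Nat.mod_self] at this
      omega
    · have e : i + 1 = n := by omega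
      rw [Nat.mod_eq_of_lt h2, e, Nat.mod_self] at this
      omega
    · omega
  · intro i hi
    have h1 := h.tri ((i + 1) % n) (Nat.mod_lt _ hn)
    have h2 : b ((i + 1) % n + 1) = b ((i + 1 + 1) % n) := by
      rw [hmod (i + 1), mod_per h.per (Nat.mod_lt _ hn)]
    rw [h2] at h1
    exact h1
  · intro F
    set G : ℕ → ℝ := fun i => F (b (i % n)) (b ((i + 1) % n)) with hG
    have e1 : ∑ i ∈ Finset.range n, F (b i) (b (i + 1)) = ∑ i ∈ Finset.range n, G i := by
      apply Finset.sum_congr rfl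
      intro i hi
      rw [Finset.mem_range] at hi
      simp only [hG]
      rw [mod_per h.per hi.le, mod_per h.per (by omega)]
    have e2 : ∑ i ∈ Finset.range n, F (b ((i + 1) % n)) (b ((i + 1 + 1) % n)) =
        ∑ i ∈ Finset.range n, G (i + 1) := rfl
    have e3 : G n = G 0 := by
      simp only [hG]
      rw [Nat.mod_self, Nat.zero_mod, Nat.add_mod_left, zero_add]
    have e4 := Finset.sum_range_succ G n
    have e5 := Finset.sum_range_succ' G n
    rw [e1, e2]
    linarith

theorem cyc_norm {X : Complex2 V} {s : Simp X} {n : ℕ} {b : ℕ → Simp X} (h : Cyc s n b)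
    (lo hi : ℕ) (hlo : lo ≠ hi)
    (hk : ∀ c : ℕ, 1 ≤ c → c ≤ 3 → c ≠ s.1.ncard → c = lo ∨ c = hi) :
    ∃ (m : ℕ) (b' : ℕ → Simp X), n = 2 * m ∧ Cyc s n b' ∧
      (∀ F : Simp X → Simp X → ℝ, ∑ i ∈ Finset.range n, F (b' i) (b' (i + 1)) =
        ∑ i ∈ Finset.range n, F (b i) (b (i + 1))) ∧
      (∀ i, i ≤ m → (b' (2 * i)).1.ncard = lo) ∧
      (∀ i, i < m → (b' (2 * i + 1)).1.ncard = hi) := by
  have hc : ∀ b : ℕ → Simp X, Cyc s n b → ∀ i, i ≤ n → (b i).1.ncard = lo ∨ (b i).1.ncard = hi := by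
    intro b h i hi
    have b1 := card_bounds (b i)
    apply hk _ b1.1 b1.2
    rcases Nat.lt_or_ge i n with h' | h'
    · exact (card_ne (h.tri i h').1).symm
    · have : i = n := le_antisymm hi h'
      subst this
      rw [h.per]
      exact (card_ne (h.tri 0 (by have := h.three; omega)).1).symm
  have main : ∀ b : ℕ → Simp X, Cyc s n b → (b 0).1.ncard = lo →
      ∃ m, n = 2 * m ∧ (∀ i, i ≤ m → (b (2 * i)).1.ncard = lo) ∧
      (∀ i, i < m → (b (2 * i + 1)).1.ncard = hi) := by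
    intro b h h0
    have step : ∀ i, i < n → (b i).1.ncard ≠ (b (i + 1)).1.ncard := fun i hi =>
      card_ne (h.tri i hi).2.1
    have par : ∀ i, (2 * i ≤ n → (b (2 * i)).1.ncard = lo) ∧
        (2 * i + 1 ≤ n → (b (2 * i + 1)).1.ncard = hi) := by
      intro i
      have aux : (2 * i ≤ n → (b (2 * i)).1.ncard = lo) → (2 * i + 1 ≤ n →
          (b (2 * i + 1)).1.ncard = hi) := by
        intro h1 h2
        have h3 := h1 (by omega)
        rcases hc b h (2 * i + 1) h2 with h4 | h4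
        · exact absurd (h3.trans h4.symm) (step (2 * i) (by omega))
        · exact h4
      induction i with
      | zero => exact ⟨fun _ => h0, aux fun _ => h0⟩
      | succ i ih =>
        have h1 : 2 * (i + 1) ≤ n → (b (2 * (i + 1))).1.ncard = lo := by
          intro h2
          have h3 : (b (2 * i + 1)).1.ncard = hi := by
            apply ih ?_ |>.2 (by omega)
            intro h4 h5
            have h6 := h4 (by omega)
            rcases hc b h (2 * i + 1) h5 with h7 | h7
            · exact absurd (h6.trans h7.symm) (step (2 * i) (by omega))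
            · exact h7
          rcases hc b h (2 * (i + 1)) h2 with h4 | h4
          · exact h4
          · exact absurd (h3.trans h4.symm) (step (2 * i + 1) (by omega))
        exact ⟨h1, aux h1⟩
    have heven : ∃ m, n = 2 * m := by
      rcases Nat.even_or_odd' n with ⟨m, hm | hm⟩
      · exact ⟨m, hm⟩
      · exfalso
        have h1 := (par m).2 (by omega)
        rw [← hm, h.per, h0] at h1
        exact hlo h1
    obtain ⟨m, hm⟩ := heven
    exact ⟨m, hm, fun i hi => (par i).1 (by omega), fun i hi => (par i).2 (by omega)⟩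
  rcases hc b h 0 (Nat.zero_le _) with h0 | h0
  · obtain ⟨m, h1, h2, h3⟩ := main b h h0
    exact ⟨m, b, h1, h, fun F => rfl, h2, h3⟩
  · obtain ⟨h1, h2⟩ := cyc_rot h
    have h3 := h.three
    have h4 : (b ((0 + 1) % n)).1.ncard = lo := by
      rw [zero_add, Nat.mod_eq_of_lt (by omega)]
      rcases hc b h 1 (by omega) with h5 | h5
      · exact h5
      · exact absurd (h0.trans h5.symm) (card_ne (h.tri 0 (by omega)).2.1)
    obtain ⟨m, h5, h6, h7⟩ := main _ h1 h4
    exact ⟨m, _, h5, h1, h2, h6, h7⟩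

theorem sum_pairs (f : ℕ → ℝ) (m : ℕ) :
    ∑ i ∈ Finset.range (2 * m), f i = ∑ i ∈ Finset.range m, (f (2 * i) + f (2 * i + 1)) := by
  induction m with
  | zero => simp
  | succ m ih =>
    rw [Finset.sum_range_succ, ← ih, show 2 * (m + 1) = 2 * m + 1 + 1 by ring,
      Finset.sum_range_succ, Finset.sum_range_succ, add_assoc]

/-! ## the link condition -/

theorem link_vertex {X : Complex2 V} {len : V → V → ℝ} (hn : NPC X len) {s : Simp X} {m : ℕ}
    {b : ℕ → Simp X} (h : Cyc s (2 * m) b) (h1 : s.1.ncard = 1)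
    (hlo : ∀ i, i ≤ m → (b (2 * i)).1.ncard = 2)
    (hhi : ∀ i, i < m → (b (2 * i + 1)).1.ncard = 3) :
    2 * Real.pi ≤ ∑ i ∈ Finset.range (2 * m), corner (sdLen len) s (b i) (b (i + 1)) := by
  obtain ⟨v, hv⟩ := card_one h1
  have : Nonempty V := ⟨v⟩
  have h3 := h.three
  have hse : ∀ i, i ≤ m → s.1 ⊂ (b (2 * i)).1 := by
    intro i hi
    apply ss_of_card _ (by rw [h1, hlo i hi]; norm_num)
    rcases Nat.lt_or_ge i m with h' | h'
    · exact (h.tri (2 * i) (by omega)).1
    · have : i = m := le_antisymm hi h'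
      subst this
      rw [h.per]
      exact (h.tri 0 (by omega)).1
  have hw : ∀ i, i ≤ m → ∃ w, v ≠ w ∧ (b (2 * i)).1 = {v, w} := fun i hi =>
    pair_sup hv (hse i hi) (hlo i hi)
  choose! w hvw hw using hw
  have hwm : w m = w 0 := by
    have e1 := hw m le_rfl
    rw [h.per, show (0 : ℕ) = 2 * 0 from rfl, hw 0 (Nat.zero_le _)] at e1
    exact pair_inj e1.symm (hvw 0 (Nat.zero_le _))
  have hinj : ∀ i j, i < m → j < m → w i = w j → i = j := by
    intro i j hi hj hij
    have := h.inj (2 * i) (2 * j) (by omega) (by omega)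
      (Subtype.ext (by rw [hw i hi.le, hw j hj.le, hij]))
    omega
  have hne : ∀ i, i < m → w i ≠ w (i + 1) := by
    intro i hi hij
    rcases Nat.lt_or_ge (i + 1) m with h' | h'
    · have := hinj i (i + 1) hi h' hij
      omega
    · have e : i + 1 = m := by omega
      rw [e, hwm] at hij
      have := hinj i 0 hi (by omega) hij
      omega
  have htri : ∀ i, i < m → X.tri v (w i) (w (i + 1)) ∧
      (b (2 * i + 1)).1 = {v, w i, w (i + 1)} := by
    intro i hi
    have t1 := h.tri (2 * i) (by omega)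
    have t2 := h.tri (2 * i + 1) (by omega)
    have s1 : (b (2 * i)).1 ⊂ (b (2 * i + 1)).1 :=
      ss_of_card t1.2.1 (by rw [hlo i hi.le, hhi i hi]; norm_num)
    have s2 : (b (2 * (i + 1))).1 ⊂ (b (2 * i + 1)).1 :=
      ss_of_card t2.2.1.symm (by
        have e1 := hlo (i + 1) hi
        have e2 := hhi i hi
        change (b (2 * (i + 1))).1.ncard < (b (2 * i + 1)).1.ncard
        omega)
    obtain ⟨c, hc, hc'⟩ := flag' (hse i hi.le) s1 hv (hw i hi.le) (hvw i hi.le)
    have hwc : w (i + 1) = c := by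
      have : w (i + 1) ∈ (b (2 * i + 1)).1 := s2.1 (by rw [hw (i + 1) hi]; simp)
      rw [hc'] at this
      rcases this with h' | h' | h'
      · exact absurd h'.symm (hvw (i + 1) hi)
      · exact absurd h'.symm (hne i hi)
      · exact h'
    rw [hwc]
    exact ⟨hc, hc'⟩
  have hm : 3 ≤ m := by
    by_contra hlt
    have hm2 : m = 2 := by omega
    subst hm2
    have e0 := (htri 0 (by norm_num)).2
    have e1 := (htri 1 (by norm_num)).2
    have := h.inj (2 * 0 + 1) (2 * 1 + 1) (by norm_num) (by norm_num) (Subtype.ext (by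
      rw [e0, e1]
      have : w (1 + 1) = w 0 := hwm
      rw [this]
      ext x
      simp
      tauto))
    omega
  have key := hn.link v m w hm hwm hinj (fun i hi => (htri i hi).1)
  refine key.trans ?_
  rw [sum_pairs]
  apply Finset.sum_le_sum
  intro i hi
  rw [Finset.mem_range] at hi
  exact local_vertex hn (htri i hi).1 s (b (2 * i)) (b (2 * i + 1)) (b (2 * i + 1 + 1)) hv
    (hw i hi.le) (htri i hi).2 (hw (i + 1) hi)

theorem edge_half {X : Complex2 V} {len : V → V → ℝ} (hn : NPC X len) (s p t q : Simp X)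
    {x y : V} (hxy : x ≠ y) (hs : s.1 = {x, y}) (hp : p.1 = {x}) (hq : q.1 = {y})
    (hps : p.1 ⊂ s.1) (hst : s.1 ⊂ t.1) :
    Real.pi ≤ corner (sdLen len) s p t + corner (sdLen len) s t q := by
  obtain ⟨c, hc, hc'⟩ := flag' hps hst hp hs hxy
  exact local_edge hn hc s p t q hs hp hc' hq

theorem link_edge {X : Complex2 V} {len : V → V → ℝ} (hn : NPC X len) {s : Simp X} {m : ℕ}
    {b : ℕ → Simp X} (h : Cyc s (2 * m) b) (h1 : s.1.ncard = 2)
    (hlo : ∀ i, i ≤ m → (b (2 * i)).1.ncard = 1)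
    (hhi : ∀ i, i < m → (b (2 * i + 1)).1.ncard = 3) :
    2 * Real.pi ≤ ∑ i ∈ Finset.range (2 * m), corner (sdLen len) s (b i) (b (i + 1)) := by
  have h3 := h.three
  have hse : ∀ i, i ≤ m → (b (2 * i)).1 ⊂ s.1 := by
    intro i hi
    apply ss_of_card _ (by rw [h1, hlo i hi]; norm_num)
    rcases Nat.lt_or_ge i m with h' | h'
    · exact (h.tri (2 * i) (by omega)).1.symm
    · have : i = m := le_antisymm hi h'
      subst this
      rw [h.per]
      exact (h.tri 0 (by omega)).1.symm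
  have hst : ∀ i, i < m → s.1 ⊂ (b (2 * i + 1)).1 := by
    intro i hi
    exact ss_of_card (h.tri (2 * i + 1) (by omega)).1 (by rw [h1, hhi i hi]; norm_num)
  obtain ⟨x, hx⟩ := card_one (hlo 0 (Nat.zero_le _))
  obtain ⟨y, hxy, hs⟩ := pair_sup hx (hse 0 (Nat.zero_le _)) h1
  have hb1 : (b (2 * 1)).1 = {y} := by
    rcases single_sub (hlo 1 (by omega)) (hse 1 (by omega)) hs with h' | h'
    · have := h.inj (2 * 1) (2 * 0) (by omega) (by omega) (Subtype.ext (by rw [h', hx]))
      omega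
    · exact h'
  have hm : m = 2 := by
    by_contra hne
    rcases single_sub (hlo 2 (by omega)) (hse 2 (by omega)) hs with h' | h'
    · have := h.inj (2 * 2) (2 * 0) (by omega) (by omega) (Subtype.ext (by rw [h', hx]))
      omega
    · have := h.inj (2 * 2) (2 * 1) (by omega) (by omega) (Subtype.ext (by rw [h', hb1]))
      omega
  subst hm
  have k1 := edge_half hn s (b 0) (b 1) (b 2) hxy hs hx hb1 (hse 0 (by norm_num))
    (hst 0 (by norm_num))
  have k2 := edge_half hn s (b 2) (b 3) (b 4) hxy.symm (by rw [hs, Set.pair_comm]) hb1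
    (by rw [show (4 : ℕ) = 2 * 2 from rfl, h.per]; exact hx) (hse 1 (by norm_num))
    (hst 1 (by norm_num))
  rw [sum_pairs, Finset.sum_range_succ, Finset.sum_range_succ, Finset.sum_range_zero]
  norm_num at k1 k2 ⊢
  linarith

theorem sdCorner_symm {X : Complex2 V} (len : V → V → ℝ) (s p q : Simp X) :
    corner (sdLen len) s p q = corner (sdLen len) s q p := by
  rw [corner, corner, sdLen_symm len p q, add_comm, mul_assoc, mul_assoc,
    mul_comm (sdLen len s p)]

theorem link_tri {X : Complex2 V} {len : V → V → ℝ} (hn : NPC X len) {s : Simp X} {m : ℕ}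
    {b : ℕ → Simp X} (h : Cyc s (2 * m) b) (h1 : s.1.ncard = 3)
    (hlo : ∀ i, i ≤ m → (b (2 * i)).1.ncard = 1)
    (hhi : ∀ i, i < m → (b (2 * i + 1)).1.ncard = 2) :
    2 * Real.pi ≤ ∑ i ∈ Finset.range (2 * m), corner (sdLen len) s (b i) (b (i + 1)) := by
  have h3 := h.three
  have hes : ∀ i, i < m → (b (2 * i + 1)).1 ⊂ s.1 := by
    intro i hi
    exact ss_of_card (h.tri (2 * i + 1) (by omega)).1.symm (by rw [h1, hhi i hi]; norm_num)
  have up : ∀ i, i < m → (b (2 * i)).1 ⊂ (b (2 * i + 1)).1 := by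
    intro i hi
    exact ss_of_card (h.tri (2 * i) (by omega)).2.1 (by rw [hlo i hi.le, hhi i hi]; norm_num)
  have dn : ∀ i, i < m → (b (2 * (i + 1))).1 ⊂ (b (2 * i + 1)).1 := by
    intro i hi
    exact ss_of_card (h.tri (2 * i + 1) (by omega)).2.1.symm (by
      have e1 := hlo (i + 1) hi
      have e2 := hhi i hi
      change (b (2 * (i + 1))).1.ncard < (b (2 * i + 1)).1.ncard
      omega)
  obtain ⟨x, y, z, hxyz, b0, b1, hs⟩ := flag (up 0 (by omega)) (hes 0 (by omega))
  have hxy := X.edge_ne (X.tri_edge _ _ _ hxyz)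
  have hyz := X.edge_ne (X.tri_edge' hxyz)
  have hxz := X.edge_ne (X.tri_edge'' hxyz)
  have b2 : (b (2 * 1)).1 = {y} := by
    rcases single_sub (hlo 1 (by omega)) (dn 0 (by omega)) b1 with h' | h'
    · have := h.inj (2 * 1) (2 * 0) (by omega) (by omega) (Subtype.ext (by rw [h', b0]))
      omega
    · exact h'
  have b3 : (b (2 * 1 + 1)).1 = {y, z} := by
    obtain ⟨u, hu, hu'⟩ := pair_sup b2 (up 1 (by omega)) (hhi 1 (by omega))
    have : u ∈ s.1 := (hes 1 (by omega)).1 (by rw [hu']; simp)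
    rw [hs] at this
    rcases this with rfl | rfl | rfl
    · have := h.inj (2 * 1 + 1) (2 * 0 + 1) (by omega) (by omega) (Subtype.ext (by
        rw [hu', b1, Set.pair_comm]))
      omega
    · exact absurd rfl hu
    · exact hu'
  have hm3 : 3 ≤ m := by
    by_contra hlt
    have hm2 : m = 2 := by omega
    subst hm2
    have := dn 1 (by norm_num)
    rw [show 2 * (1 + 1) = 2 * 2 from rfl, h.per, show (0 : ℕ) = 2 * 0 from rfl, b0, b3] at this
    have hx : x ∈ ({y, z} : Set V) := this.1 rfl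
    rcases hx with h' | h'
    · exact hxy h'
    · exact hxz h'
  have b4 : (b (2 * 2)).1 = {z} := by
    rcases single_sub (hlo 2 (by omega)) (dn 1 (by omega)) b3 with h' | h'
    · have := h.inj (2 * 2) (2 * 1) (by omega) (by omega) (Subtype.ext (by rw [h', b2]))
      omega
    · exact h'
  have b5 : (b (2 * 2 + 1)).1 = {z, x} := by
    obtain ⟨u, hu, hu'⟩ := pair_sup b4 (up 2 (by omega)) (hhi 2 (by omega))
    have : u ∈ s.1 := (hes 2 (by omega)).1 (by rw [hu']; simp)
    rw [hs] at this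
    rcases this with rfl | rfl | rfl
    · exact hu'
    · have := h.inj (2 * 2 + 1) (2 * 1 + 1) (by omega) (by omega) (Subtype.ext (by
        rw [hu', b3, Set.pair_comm]))
      omega
    · exact absurd rfl hu
  have hm : m = 3 := by
    by_contra hne
    rcases single_sub (hlo 3 (by omega)) (dn 2 (by omega)) b5 with h' | h'
    · have := h.inj (2 * 3) (2 * 2) (by omega) (by omega) (Subtype.ext (by rw [h', b4]))
      omega
    · have := h.inj (2 * 3) (2 * 0) (by omega) (by omega) (Subtype.ext (by rw [h', b0]))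
      omega
  subst hm
  have b6 : (b 6).1 = {x} := by
    rw [show (6 : ℕ) = 2 * 3 from rfl, h.per]; exact b0
  have k1 := local_tri hn hxyz s (b 0) (b 1) (b 2) (b 3) hs b0 b1 b2 b3
  have k2 := local_tri hn (X.tri_swap' hxyz) s (b 6) (b 5) (b 4) (b 3)
    (by rw [hs]; ext v; simp; tauto) b6 (by rw [show (5 : ℕ) = 2 * 2 + 1 from rfl, b5, Set.pair_comm])
    b4 (by rw [show (3 : ℕ) = 2 * 1 + 1 from rfl, b3, Set.pair_comm])
  rw [sdCorner_symm len s (b 6) (b 5), sdCorner_symm len s (b 5) (b 4),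
    sdCorner_symm len s (b 4) (b 3)] at k2
  rw [sum_pairs, Finset.sum_range_succ, Finset.sum_range_succ, Finset.sum_range_succ,
    Finset.sum_range_zero]
  norm_num at k1 k2 ⊢
  linarith

/-! ## the triangle inequality -/

theorem sd_pos_flag {X : Complex2 V} {len : V → V → ℝ} (hn : NPC X len) {s t : Simp X}
    (h : s.1 ⊂ t.1) : 0 < sdLen len s t := by
  have c1 := card_lt h
  have b1 := card_bounds s
  have b2 := card_bounds t
  by_cases h3 : t.1.ncard = 3
  · by_cases h2 : s.1.ncard = 1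
    · obtain ⟨x, hx⟩ := card_one h2
      obtain ⟨a, b, c, habc, ht⟩ := card_three h3
      have hxt : x ∈ ({a, b, c} : Set V) := by rw [← ht]; exact h.1 (by rw [hx]; rfl)
      have key : ∃ y z, X.tri x y z ∧ t.1 = {x, y, z} := by
        have hne := X.edge_ne (X.tri_edge _ _ _ habc)
        have hne' := X.edge_ne (X.tri_edge' habc)
        have hne'' := X.edge_ne (X.tri_edge'' habc)
        rcases hxt with rfl | rfl | rfl
        · exact ⟨b, c, habc, ht⟩
        · exact ⟨a, c, X.tri_swap _ _ _ habc, by rw [ht]; ext; simp; tauto⟩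
        · exact ⟨a, b, X.tri_rot _ _ _ (X.tri_rot _ _ _ habc), by rw [ht]; ext; simp; tauto⟩
      obtain ⟨y, z, hxyz, ht'⟩ := key
      obtain ⟨φ, hφ⟩ := exists_emb hn hxyz
      rw [sdLen_eq hφ s t (by rw [hx]; intro v hv; rcases hv with rfl; simp) (by rw [ht']), hx, ht',
        pt_one, pt_three φ (X.edge_ne (X.tri_edge _ _ _ hxyz)) (X.edge_ne (X.tri_edge' hxyz))
        (X.edge_ne (X.tri_edge'' hxyz)), norm_pos_iff]
      have h6 := hφ.ne (α := -1 / 3) (β := -1 / 3) (Or.inl (by norm_num))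
      intro h7
      apply h6
      rw [← h7]
      module
    · obtain ⟨x, y, hxy, hx⟩ := card_two (s := s) (by omega)
      obtain ⟨a, b, c, habc, ht⟩ := card_three h3
      obtain ⟨z, hxyz, hz⟩ := third habc (x := x) (y := y)
        (by rw [← ht]; exact h.1 (by rw [hx]; simp)) (by rw [← ht]; exact h.1 (by rw [hx]; simp))
        (X.edge_ne hxy)
      have ht' : t.1 = {x, y, z} := by rw [ht, hz]
      obtain ⟨φ, hφ⟩ := exists_emb hn hxyz
      rw [sdLen_eq hφ s t (by rw [hx]; rintro v (rfl | rfl) <;> simp) (by rw [ht']), hx, ht',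
        pt_two φ (X.edge_ne hxy), pt_three φ (X.edge_ne (X.tri_edge _ _ _ hxyz))
        (X.edge_ne (X.tri_edge' hxyz)) (X.edge_ne (X.tri_edge'' hxyz)), norm_pos_iff]
      have h6 := hφ.ne (α := 1 / 6) (β := -1 / 3) (Or.inl (by norm_num))
      intro h7
      apply h6
      rw [← h7]
      module
  · obtain ⟨x, hx⟩ := card_one (s := s) (by omega)
    obtain ⟨y, hxy, ht⟩ := pair_sup hx h (by omega)
    obtain ⟨a, b, hab, ht2⟩ := card_two (s := t) (by omega)
    have hedge : X.edge x y := by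
      rw [ht] at ht2
      have hx' : x ∈ ({a, b} : Set V) := by rw [← ht2]; simp
      have hy' : y ∈ ({a, b} : Set V) := by rw [← ht2]; simp
      rcases hx' with rfl | rfl <;> rcases hy' with rfl | rfl
      · exact absurd rfl hxy
      · exact hab
      · exact X.edge_symm _ _ hab
      · exact absurd rfl hxy
    unfold sdLen
    rw [Real.sqrt_pos, hx, ht, bar_one, bar_two hxy, sqd_two len hn.symm _ hxy]
    · have hp := hn.pos _ _ hedge
      simp [Finsupp.single_apply, hxy, hxy.symm]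
      norm_num
      positivity
    · intro v hv
      by_contra hne
      push Not at hne
      apply hv
      simp [Finsupp.single_apply, hne.1.symm, hne.2.symm]

theorem sd_pos {X : Complex2 V} {len : V → V → ℝ} (hn : NPC X len) {s t : Simp X}
    (h : SCmp s t) : 0 < sdLen len s t := by
  rcases h with h | h
  · exact sd_pos_flag hn h
  · rw [sdLen_symm]; exact sd_pos_flag hn h

/-- the strict triangle inequality from non-collinearity -/
theorem strict_of {x y z : ℂ} (h : ∀ t : ℝ, y ≠ x + t • (z - x)) : ‖x - z‖ < ‖x - y‖ + ‖y - z‖ := by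
  have h1 : ¬ Wbtw ℝ x y z := by
    rintro ⟨t, _, ht⟩
    apply h t
    rw [← ht, AffineMap.lineMap_apply, vsub_eq_sub, vadd_eq_add, add_comm]
  rw [← dist_eq_norm, ← dist_eq_norm, ← dist_eq_norm]
  rcases (dist_triangle x y z).lt_or_eq with h2 | h2
  · exact h2
  · exact absurd (dist_add_dist_eq_iff.mp h2.symm) h1

theorem sd_flag_strict {X : Complex2 V} {len : V → V → ℝ} (hn : NPC X len) {r s t : Simp X}
    (h1 : r.1 ⊂ s.1) (h2 : s.1 ⊂ t.1) : sdLen len r t < sdLen len r s + sdLen len s t ∧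
      sdLen len r s < sdLen len r t + sdLen len t s ∧
      sdLen len s t < sdLen len s r + sdLen len r t := by
  obtain ⟨a, b, c, habc, hr, hs, ht⟩ := flag h1 h2
  obtain ⟨φ, hφ⟩ := exists_emb hn habc
  have e1 := X.edge_ne (X.tri_edge _ _ _ habc)
  have e2 := X.edge_ne (X.tri_edge' habc)
  have e3 := X.edge_ne (X.tri_edge'' habc)
  have s1 : r.1 ⊆ {a, b, c} := by rw [hr]; intro v hv; rcases hv with rfl; simp
  have s2 : s.1 ⊆ {a, b, c} := by rw [hs]; rintro v (rfl | rfl) <;> simp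
  have s3 : t.1 ⊆ {a, b, c} := by rw [ht]
  rw [sdLen_eq hφ r t s1 s3, sdLen_eq hφ r s s1 s2, sdLen_eq hφ s t s2 s3, sdLen_eq hφ t s s3 s2,
    sdLen_eq hφ s r s2 s1]
  have p1 : pt φ r.1 = φ a := by rw [hr, pt_one]
  have p2 : pt φ s.1 = φ a + (1 / 2 : ℝ) • (φ b - φ a) := by
    rw [hs, pt_two φ e1]; module
  have p3 : pt φ t.1 = φ a + ((1 / 3 : ℝ) • (φ b - φ a) + (1 / 3 : ℝ) • (φ c - φ a)) := by
    rw [ht, pt_three φ e1 e2 e3]; module
  rw [p1, p2, p3]
  refine ⟨strict_of fun τ hτ => ?_, strict_of fun τ hτ => ?_, strict_of fun τ hτ => ?_⟩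
  · have : (1 / 2 - τ / 3 : ℝ) • (φ b - φ a) + (-(τ / 3) : ℝ) • (φ c - φ a) = 0 := by
      rw [← sub_eq_zero] at hτ
      rw [← hτ]
      module
    obtain ⟨h3, h4⟩ := hφ.li _ _ this
    linarith
  · have : (1 / 3 - τ / 2 : ℝ) • (φ b - φ a) + (1 / 3 : ℝ) • (φ c - φ a) = 0 := by
      rw [← sub_eq_zero] at hτ
      rw [← hτ]
      module
    obtain ⟨h3, h4⟩ := hφ.li _ _ this
    linarith
  · have : (-1 / 2 + τ * (1 / 2 - 1 / 3) : ℝ) • (φ b - φ a) + (-(τ / 3) : ℝ) • (φ c - φ a) = 0 := by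
      rw [← sub_eq_zero] at hτ
      rw [← hτ]
      module
    obtain ⟨h3, h4⟩ := hφ.li _ _ this
    have : τ = 0 := by linarith
    rw [this] at h3
    norm_num at h3

/-- SD-b -/
theorem sd_npc (X : Complex2 V) (len : V → V → ℝ) (hn : NPC X len) :
    NPC (sd X) (sdLen len) where
  symm s t := sdLen_symm len s t
  pos s t h := sd_pos hn h
  triangle r s t h := by
    obtain ⟨h1, h2, h3⟩ := h
    have hs := sdLen_symm (X := X) len
    rcases h1 with h1 | h1 <;> rcases h2 with h2 | h2 <;> rcases h3 with h3 | h3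
    · exact (sd_flag_strict hn h1 h2).1
    · exact absurd (h1.trans h2) (fun h => (card_lt h).not_gt (card_lt h3))
    · have := (sd_flag_strict hn h3 h2).2.1
      exact this
    · have := (sd_flag_strict hn h3 h1).2.1
      linarith [hs r s, hs s t, hs r t]
    · have := (sd_flag_strict hn h1 h3).2.2
      linarith [hs r s, hs s t, hs r t]
    · have := (sd_flag_strict hn h2 h3).2.2
      linarith [hs r s, hs s t, hs r t]
    · exact absurd (h2.trans h1) (fun h => (card_lt h).not_gt (card_lt h3))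
    · have := (sd_flag_strict hn h2 h1).1
      linarith [hs r s, hs s t, hs r t]
  link s n b h3 hper hinj htri := by
    have hC : Cyc s n b := ⟨h3, hper, hinj, htri⟩
    have hb := card_bounds s
    have hk : s.1.ncard = 1 ∨ s.1.ncard = 2 ∨ s.1.ncard = 3 := by omega
    rcases hk with hk | hk | hk
    · obtain ⟨m, b', rfl, hC', hF, hlo, hhi⟩ := cyc_norm hC 2 3 (by norm_num)
        (fun c _ _ h => by omega)
      rw [← hF (fun p q => corner (sdLen len) s p q)]
      exact link_vertex hn hC' hk hlo hhi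
    · obtain ⟨m, b', rfl, hC', hF, hlo, hhi⟩ := cyc_norm hC 1 3 (by norm_num)
        (fun c _ _ h => by omega)
      rw [← hF (fun p q => corner (sdLen len) s p q)]
      exact link_edge hn hC' hk hlo hhi
    · obtain ⟨m, b', rfl, hC', hF, hlo, hhi⟩ := cyc_norm hC 1 2 (by norm_num)
        (fun c _ _ h => by omega)
      rw [← hF (fun p q => corner (sdLen len) s p q)]
      exact link_tri hn hC' hk hlo hhi

end Pool.Agent.helper74.FJ3
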