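import Pool.Agent.helper34.FJ3.Sd
import Pool.Agent.helper68.FJ3.Bary

set_option autoImplicit false

/-!
# Module SD-b of the FJ3 project: the geometry of one triangle and its barycentric subdivision
-/

namespace Pool.Agent.helper74.FJ3

open Pool.Agent.helper34.FJ2 Pool.Agent.helper34.FJ3 Pool.Agent.helper68.FJ3
open scoped BigOperators
open InnerProductGeometry

variable {V : Type}

/-! ## barycentres -/

open Classical in
theorem bar_apply {s : Set V} (hs : s.Finite) (v : V) :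
    bar s v = if v ∈ s then 1 / (s.ncard : ℝ) else 0 := by
  unfold bar
  rw [dif_pos hs]
  by_cases h : v ∈ s
  · rw [if_pos h, Finsupp.indicator_of_mem (by simpa using h)]
  · rw [if_neg h, Finsupp.indicator_of_notMem (by simpa using h)]

theorem bar_one (a : V) : bar ({a} : Set V) = Finsupp.single a 1 := by
  classical
  ext v
  rw [bar_apply (Set.finite_singleton a), Set.ncard_singleton, Finsupp.single_apply]
  by_cases h : v = a
  · subst h; simp
  · rw [if_neg (by simpa using h), if_neg (fun h' => h h'.symm)]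

theorem bar_two {a b : V} (hab : a ≠ b) :
    bar ({a, b} : Set V) = Finsupp.single a (1 / 2) + Finsupp.single b (1 / 2) := by
  classical
  ext v
  rw [bar_apply (Set.toFinite _), Set.ncard_pair hab, Finsupp.add_apply, Finsupp.single_apply,
    Finsupp.single_apply]
  by_cases ha : v = a
  · subst ha
    simp [hab.symm]
  · by_cases hb : v = b
    · subst hb
      simp [hab]
    · rw [if_neg (by simp [ha, hb]), if_neg (fun h' => ha h'.symm), if_neg (fun h' => hb h'.symm)]
      simp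

theorem ncard_three {a b c : V} (hab : a ≠ b) (hbc : b ≠ c) (hac : a ≠ c) :
    ({a, b, c} : Set V).ncard = 3 := by
  rw [Set.ncard_insert_of_notMem (by simp [hab, hac]), Set.ncard_pair hbc]

theorem bar_three {a b c : V} (hab : a ≠ b) (hbc : b ≠ c) (hac : a ≠ c) :
    bar ({a, b, c} : Set V) =
      Finsupp.single a (1 / 3) + Finsupp.single b (1 / 3) + Finsupp.single c (1 / 3) := by
  classical
  ext v
  rw [bar_apply (Set.toFinite _), ncard_three hab hbc hac, Finsupp.add_apply, Finsupp.add_apply,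
    Finsupp.single_apply, Finsupp.single_apply, Finsupp.single_apply]
  by_cases ha : v = a
  · subst ha
    simp [hab.symm, hac.symm]
  · by_cases hb : v = b
    · subst hb
      simp [hab, hbc.symm]
    · by_cases hc : v = c
      · subst hc
        simp [hac, hbc]
      · rw [if_neg (by simp [ha, hb, hc]), if_neg (fun h' => ha h'.symm),
          if_neg (fun h' => hb h'.symm), if_neg (fun h' => hc h'.symm)]
        simp

/-! ## the Euclidean formula -/

theorem sqd_neg (len : V → V → ℝ) (z : V →₀ ℝ) : sqd len (-z) = sqd len z := by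
  classical
  rw [sqd_eq len (-z) z.support (by rw [Finsupp.support_neg]), sqd_eq len z z.support le_rfl]
  congr 1
  apply Finset.sum_congr rfl; intro a _
  apply Finset.sum_congr rfl; intro b _
  rw [Finsupp.neg_apply, Finsupp.neg_apply]
  split_ifs
  · rfl
  · ring

theorem sdLen_symm {X : Complex2 V} (len : V → V → ℝ) (s t : Simp X) :
    sdLen len s t = sdLen len t s := by
  unfold sdLen
  rw [← sqd_neg, neg_sub]

theorem sqd_embed (len : V → V → ℝ) (φ : V → ℂ) (S : Finset V)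
    (hφ : ∀ v ∈ S, ∀ w ∈ S, v ≠ w → ‖φ v - φ w‖ = len v w) (z : V →₀ ℝ) (hz : z.support ⊆ S)
    (h0 : ∑ v ∈ S, z v = 0) : sqd len z = ‖Finsupp.linearCombination ℝ φ z‖ ^ 2 := by
  classical
  rw [sqd_eq len z S hz, Finsupp.linearCombination_apply,
    Finsupp.sum_of_support_subset z hz (fun i a => a • φ i) (fun _ _ => zero_smul _ _),
    ← real_inner_self_eq_norm_sq,
    inner_sum_smul_sum_smul_of_sum_eq_zero φ h0 φ h0]
  rw [neg_div, neg_mul, neg_inj, one_div, inv_mul_eq_div]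
  congr 1
  apply Finset.sum_congr rfl; intro a ha
  apply Finset.sum_congr rfl; intro b hb
  split_ifs with h
  · subst h; simp
  · rw [hφ a ha b hb h]; ring

/-- the triangle `x, y, z` in the plane -/
theorem exists_plane {x y z : ℝ} (hx : 0 < x) (hy : 0 < y) (h1 : x < y + z)
    (h2 : y < x + z) (h3 : z < x + y) : ∃ u w : ℂ, ‖u‖ = x ∧ ‖w‖ = y ∧ ‖u - w‖ = z ∧
      ∀ α β : ℝ, α • u + β • w = 0 → α = 0 ∧ β = 0 := by
  have hz : 0 < z := by linarith
  set p : ℝ := (x ^ 2 + y ^ 2 - z ^ 2) / (2 * x) with hp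
  have hpx : 2 * x * p = x ^ 2 + y ^ 2 - z ^ 2 := by
    rw [hp]; field_simp
  have hpy : p ^ 2 < y ^ 2 := by
    rw [sq_lt_sq, abs_of_pos hy, abs_lt]
    constructor
    · have : 0 < (2 * x) * (p + y) := by nlinarith
      have := (mul_pos_iff_of_pos_left (by positivity : (0 : ℝ) < 2 * x)).mp this
      linarith
    · have : 0 < (2 * x) * (y - p) := by nlinarith
      have := (mul_pos_iff_of_pos_left (by positivity : (0 : ℝ) < 2 * x)).mp this
      linarith
  set q : ℝ := Real.sqrt (y ^ 2 - p ^ 2) with hq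
  have hq0 : 0 < q := Real.sqrt_pos.mpr (by linarith)
  have hq2 : q ^ 2 = y ^ 2 - p ^ 2 := Real.sq_sqrt (by linarith)
  have key : ∀ (s t r : ℝ), 0 ≤ r → s ^ 2 + t ^ 2 = r ^ 2 → ‖(⟨s, t⟩ : ℂ)‖ = r := by
    intro s t r hr h
    have h4 : ‖(⟨s, t⟩ : ℂ)‖ ^ 2 = r ^ 2 := by
      rw [Complex.sq_norm, Complex.normSq_mk, ← h]; ring
    exact (sq_eq_sq₀ (norm_nonneg _) hr).mp h4
  refine ⟨⟨x, 0⟩, ⟨p, q⟩, key _ _ _ hx.le (by ring), key _ _ _ hy.le (by linarith), ?_, ?_⟩
  · have : (⟨x, 0⟩ : ℂ) - ⟨p, q⟩ = ⟨x - p, -q⟩ := by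
      apply Complex.ext <;> simp
    rw [this]
    exact key _ _ _ hz.le (by nlinarith)
  · intro α β h
    have hre := congrArg Complex.re h
    have him := congrArg Complex.im h
    simp at hre him
    have hβ : β = 0 := by
      rcases him with h | h
      · exact h
      · exact absurd h hq0.ne'
    subst hβ
    refine ⟨?_, rfl⟩
    simp at hre
    rcases hre with h | h
    · exact h
    · exact absurd h hx.ne'

/-- a triangle of the complex realised in the plane -/
structure Emb (len : V → V → ℝ) (a b c : V) (φ : V → ℂ) : Prop where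
  dist : ∀ v ∈ ({a, b, c} : Set V), ∀ w ∈ ({a, b, c} : Set V), v ≠ w → ‖φ v - φ w‖ = len v w
  li : ∀ α β : ℝ, α • (φ b - φ a) + β • (φ c - φ a) = 0 → α = 0 ∧ β = 0

theorem exists_emb {X : Complex2 V} {len : V → V → ℝ} (hn : NPC X len) {a b c : V}
    (h : X.tri a b c) : ∃ φ : V → ℂ, Emb len a b c φ := by
  classical
  have e1 := X.edge_ne (X.tri_edge _ _ _ h)
  have e2 := X.edge_ne (X.tri_edge' h)
  have e3 := X.edge_ne (X.tri_edge'' h)
  have h1 := hn.pos _ _ (X.tri_edge _ _ _ h)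
  have h2 := hn.pos _ _ (X.tri_edge'' h)
  have h3 := hn.pos _ _ (X.tri_edge' h)
  have h4 := hn.triangle _ _ _ h
  have h5 := hn.triangle _ _ _ (X.tri_swap _ _ _ h)
  have h6 := hn.triangle _ _ _ (X.tri_swap' h)
  rw [hn.symm b a] at h5
  rw [hn.symm c b] at h6
  obtain ⟨u, w, hu, hw, huw, hli⟩ := exists_plane (x := len a b) (y := len a c) (z := len b c)
    h1 h2 (by linarith) (by linarith) (by linarith)
  let φ : V → ℂ := fun v => if v = b then u else if v = c then w else 0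
  have ha : φ a = 0 := by simp [φ, e1, e3]
  have hb : φ b = u := by simp [φ]
  have hc : φ c = w := by simp [φ, e2.symm]
  refine ⟨φ, ?_, ?_⟩
  · rintro v (rfl | rfl | rfl) w' (rfl | rfl | rfl) hvw
    · exact absurd rfl hvw
    · rw [ha, hb, zero_sub, norm_neg, hu]
    · rw [ha, hc, zero_sub, norm_neg, hw]
    · rw [ha, hb, sub_zero, hu, hn.symm]
    · exact absurd rfl hvw
    · rw [hb, hc, huw]
    · rw [ha, hc, sub_zero, hw, hn.symm]
    · rw [hb, hc, norm_sub_rev, huw, hn.symm]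
    · exact absurd rfl hvw
  · intro α β h'
    rw [ha, hb, hc, sub_zero, sub_zero] at h'
    exact hli α β h'

/-- the barycentre in the plane -/
noncomputable def pt (φ : V → ℂ) (s : Set V) : ℂ := Finsupp.linearCombination ℝ φ (bar s)

theorem pt_one (φ : V → ℂ) (a : V) : pt φ {a} = φ a := by
  rw [pt, bar_one, Finsupp.linearCombination_single, one_smul]

theorem pt_two (φ : V → ℂ) {a b : V} (hab : a ≠ b) :
    pt φ {a, b} = (1 / 2 : ℝ) • φ a + (1 / 2 : ℝ) • φ b := by
  rw [pt, bar_two hab, map_add, Finsupp.linearCombination_single,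
    Finsupp.linearCombination_single]

theorem pt_three (φ : V → ℂ) {a b c : V} (hab : a ≠ b) (hbc : b ≠ c) (hac : a ≠ c) :
    pt φ {a, b, c} = (1 / 3 : ℝ) • φ a + (1 / 3 : ℝ) • φ b + (1 / 3 : ℝ) • φ c := by
  rw [pt, bar_three hab hbc hac, map_add, map_add, Finsupp.linearCombination_single,
    Finsupp.linearCombination_single, Finsupp.linearCombination_single]

theorem isSimp_finite {X : Complex2 V} {s : Set V} (h : IsSimp X s) : s.Finite := by
  rcases h with ⟨a, rfl⟩ | ⟨a, b, _, rfl⟩ | ⟨a, b, c, _, rfl⟩ <;> exact Set.toFinite _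

theorem isSimp_nonempty {X : Complex2 V} {s : Set V} (h : IsSimp X s) : s.Nonempty := by
  rcases h with ⟨a, rfl⟩ | ⟨a, b, _, rfl⟩ | ⟨a, b, c, _, rfl⟩ <;> exact ⟨a, by simp⟩

theorem bar_sum {s : Set V} (hs : s.Finite) (hne : s.Nonempty) (S : Finset V)
    (hS : s ⊆ (S : Set V)) : ∑ v ∈ S, bar s v = 1 := by
  classical
  have h1 : ∑ v ∈ S, bar s v = ∑ v ∈ hs.toFinset, bar s v := by
    symm
    apply Finset.sum_subset
    · intro v hv
      exact hS (by simpa using hv)
    · intro v _ hv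
      rw [bar_apply hs, if_neg (by simpa using hv)]
  rw [h1, Finset.sum_congr rfl (g := fun _ => 1 / (s.ncard : ℝ))]
  · rw [Finset.sum_const, nsmul_eq_mul, ← Set.ncard_eq_toFinset_card s hs]
    have : (s.ncard : ℝ) ≠ 0 := by
      rw [Nat.cast_ne_zero]
      exact (Set.ncard_pos hs).mpr hne |>.ne'
    field_simp
  · intro v hv
    rw [bar_apply hs, if_pos (by simpa using hv)]

theorem bar_supp {s : Set V} (hs : s.Finite) {v : V} (h : bar s v ≠ 0) : v ∈ s := by
  classical
  by_contra hv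
  rw [bar_apply hs, if_neg hv] at h
  exact h rfl

theorem sdLen_eq {X : Complex2 V} {len : V → V → ℝ} {a b c : V} {φ : V → ℂ}
    (he : Emb len a b c φ) (s t : Simp X) (hs : s.1 ⊆ {a, b, c}) (ht : t.1 ⊆ {a, b, c}) :
    sdLen len s t = ‖pt φ s.1 - pt φ t.1‖ := by
  classical
  have hfs := isSimp_finite s.2
  have hft := isSimp_finite t.2
  have hS : ((({a, b, c} : Finset V) : Finset V) : Set V) = {a, b, c} := by simp
  unfold sdLen
  rw [sqd_embed len φ {a, b, c} ?_ (bar s.1 - bar t.1) ?_ ?_, Real.sqrt_sq (norm_nonneg _),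
    map_sub]
  · rfl
  · intro v hv w hw hvw
    exact he.dist v (by simpa using hv) w (by simpa using hw) hvw
  · intro v hv
    rw [Finsupp.mem_support_iff, Finsupp.sub_apply] at hv
    by_contra h
    apply hv
    have h' : v ∉ ({a, b, c} : Set V) := by simpa using h
    have h1 : bar s.1 v = 0 := by
      by_contra h2; exact h' (hs (bar_supp hfs h2))
    have h2 : bar t.1 v = 0 := by
      by_contra h2; exact h' (ht (bar_supp hft h2))
    rw [h1, h2, sub_zero]
  · simp only [Finsupp.sub_apply]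
    rw [Finset.sum_sub_distrib, bar_sum hfs (isSimp_nonempty s.2) _ (by rw [hS]; exact hs),
      bar_sum hft (isSimp_nonempty t.2) _ (by rw [hS]; exact ht), sub_self]

theorem corner_eq_angle {W : Type} (l : W → W → ℝ) (a b c : W) (p q r : ℂ)
    (h1 : l a b = ‖p - q‖) (h2 : l a c = ‖p - r‖) (h3 : l b c = ‖q - r‖) :
    corner l a b c = angle (q - p) (r - p) := by
  unfold corner angle
  rw [real_inner_eq_norm_mul_self_add_norm_mul_self_sub_norm_sub_mul_self_div_two, h1, h2, h3,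
    norm_sub_rev p q, norm_sub_rev p r, sub_sub_sub_cancel_right, div_div]
  congr 2
  · ring
  · ring

theorem sdCorner_eq {X : Complex2 V} {len : V → V → ℝ} {a b c : V} {φ : V → ℂ}
    (he : Emb len a b c φ) (r s t : Simp X) (hr : r.1 ⊆ {a, b, c}) (hs : s.1 ⊆ {a, b, c})
    (ht : t.1 ⊆ {a, b, c}) :
    corner (sdLen len) r s t = angle (pt φ s.1 - pt φ r.1) (pt φ t.1 - pt φ r.1) :=
  corner_eq_angle _ _ _ _ _ _ _ (sdLen_eq he _ _ hr hs) (sdLen_eq he _ _ hr ht)
    (sdLen_eq he _ _ hs ht)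

theorem Emb.ne {len : V → V → ℝ} {a b c : V} {φ : V → ℂ} (he : Emb len a b c φ) {α β : ℝ}
    (h : α ≠ 0 ∨ β ≠ 0) : α • (φ b - φ a) + β • (φ c - φ a) ≠ 0 := by
  intro h'
  obtain ⟨h1, h2⟩ := he.li α β h'
  rcases h with h | h
  · exact h h1
  · exact h h2

/-! ## the three angle inequalities -/

theorem local_vertex {X : Complex2 V} {len : V → V → ℝ} (hn : NPC X len) {v w w' : V}
    (h : X.tri v w w') (s e t e' : Simp X) (hs : s.1 = {v}) (he : e.1 = {v, w})
    (ht : t.1 = {v, w, w'}) (he' : e'.1 = {v, w'}) :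
    corner len v w w' ≤ corner (sdLen len) s e t + corner (sdLen len) s t e' := by
  obtain ⟨φ, hφ⟩ := exists_emb hn h
  have e1 := X.edge_ne (X.tri_edge _ _ _ h)
  have e2 := X.edge_ne (X.tri_edge' h)
  have e3 := X.edge_ne (X.tri_edge'' h)
  have s1 : s.1 ⊆ {v, w, w'} := by rw [hs]; intro x hx; rcases hx with rfl; simp
  have s2 : e.1 ⊆ {v, w, w'} := by rw [he]; rintro x (rfl | rfl) <;> simp
  have s3 : t.1 ⊆ {v, w, w'} := by rw [ht]
  have s4 : e'.1 ⊆ {v, w, w'} := by rw [he']; rintro x (rfl | rfl) <;> simp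
  rw [sdCorner_eq hφ s e t s1 s2 s3, sdCorner_eq hφ s t e' s1 s3 s4,
    corner_eq_angle len v w w' (φ v) (φ w) (φ w')
      (hφ.dist _ (by simp) _ (by simp) e1).symm (hφ.dist _ (by simp) _ (by simp) e3).symm
      (hφ.dist _ (by simp) _ (by simp) e2).symm]
  rw [hs, he, he', pt_one, pt_two φ e1, pt_two φ e3]
  have h1 : (1 / 2 : ℝ) • φ v + (1 / 2 : ℝ) • φ w - φ v = (1 / 2 : ℝ) • (φ w - φ v) := by
    module
  have h2 : (1 / 2 : ℝ) • φ v + (1 / 2 : ℝ) • φ w' - φ v = (1 / 2 : ℝ) • (φ w' - φ v) := by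
    module
  rw [h1, h2, angle_smul_left_of_pos _ _ (by norm_num), angle_smul_right_of_pos _ _ (by norm_num)]
  exact angle_le_angle_add_angle _ _ _

theorem local_edge {X : Complex2 V} {len : V → V → ℝ} (hn : NPC X len) {v w u : V}
    (h : X.tri v w u) (s p t q : Simp X) (hs : s.1 = {v, w}) (hp : p.1 = {v})
    (ht : t.1 = {v, w, u}) (hq : q.1 = {w}) :
    Real.pi ≤ corner (sdLen len) s p t + corner (sdLen len) s t q := by
  obtain ⟨φ, hφ⟩ := exists_emb hn h
  have e1 := X.edge_ne (X.tri_edge _ _ _ h)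
  have s1 : s.1 ⊆ {v, w, u} := by rw [hs]; rintro x (rfl | rfl) <;> simp
  have s2 : p.1 ⊆ {v, w, u} := by rw [hp]; intro x hx; rcases hx with rfl; simp
  have s3 : t.1 ⊆ {v, w, u} := by rw [ht]
  have s4 : q.1 ⊆ {v, w, u} := by rw [hq]; intro x hx; rcases hx with rfl; simp
  rw [sdCorner_eq hφ s p t s1 s2 s3, sdCorner_eq hφ s t q s1 s3 s4]
  refine le_trans (le_of_eq ?_) (angle_le_angle_add_angle _ _ _)
  rw [hs, hp, hq, pt_one, pt_one, pt_two φ e1]
  have h1 : φ v - ((1 / 2 : ℝ) • φ v + (1 / 2 : ℝ) • φ w) =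
      -(φ w - ((1 / 2 : ℝ) • φ v + (1 / 2 : ℝ) • φ w)) := by module
  rw [h1, angle_neg_self_of_nonzero]
  have h2 := hφ.ne (α := 1 / 2) (β := 0) (Or.inl (by norm_num))
  intro h3
  apply h2
  rw [← h3]
  module

theorem local_tri {X : Complex2 V} {len : V → V → ℝ} (hn : NPC X len) {x y z : V}
    (h : X.tri x y z) (s p1 p2 p3 p4 : Simp X) (hs : s.1 = {x, y, z}) (h1 : p1.1 = {x})
    (h2 : p2.1 = {x, y}) (h3 : p3.1 = {y}) (h4 : p4.1 = {y, z}) :
    Real.pi ≤ corner (sdLen len) s p1 p2 + corner (sdLen len) s p2 p3 +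
      corner (sdLen len) s p3 p4 := by
  obtain ⟨φ, hφ⟩ := exists_emb hn h
  have e1 := X.edge_ne (X.tri_edge _ _ _ h)
  have e2 := X.edge_ne (X.tri_edge' h)
  have e3 := X.edge_ne (X.tri_edge'' h)
  have s0 : s.1 ⊆ {x, y, z} := by rw [hs]
  have s1 : p1.1 ⊆ {x, y, z} := by rw [h1]; intro v hx; rcases hx with rfl; simp
  have s2 : p2.1 ⊆ {x, y, z} := by rw [h2]; rintro v (rfl | rfl) <;> simp
  have s3 : p3.1 ⊆ {x, y, z} := by rw [h3]; intro v hx; rcases hx with rfl; simp
  have s4 : p4.1 ⊆ {x, y, z} := by rw [h4]; rintro v (rfl | rfl) <;> simp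
  rw [sdCorner_eq hφ s p1 p2 s0 s1 s2, sdCorner_eq hφ s p2 p3 s0 s2 s3,
    sdCorner_eq hφ s p3 p4 s0 s3 s4]
  refine le_trans (le_trans (le_of_eq ?_) (angle_le_angle_add_angle _ (pt φ p3.1 - pt φ s.1) _))
    (add_le_add_left (angle_le_angle_add_angle _ (pt φ p2.1 - pt φ s.1) _) _)
  rw [hs, h1, h4, pt_one, pt_two φ e2, pt_three φ e1 e2 e3]
  have h5 : (1 / 2 : ℝ) • φ y + (1 / 2 : ℝ) • φ z -
      ((1 / 3 : ℝ) • φ x + (1 / 3 : ℝ) • φ y + (1 / 3 : ℝ) • φ z) =
      (1 / 2 : ℝ) • -(φ x - ((1 / 3 : ℝ) • φ x + (1 / 3 : ℝ) • φ y + (1 / 3 : ℝ) • φ z)) := by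
    module
  rw [h5, angle_smul_right_of_pos _ _ (by norm_num), angle_self_neg_of_nonzero]
  have h6 := hφ.ne (α := -1 / 3) (β := -1 / 3) (Or.inl (by norm_num))
  intro h7
  apply h6
  rw [← h7]
  module

end Pool.Agent.helper74.FJ3
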